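import Pool.Agent.BES.Stmts

/-!
# Squad BES, row PHS: the symmetric eigenfunction of the sector
-/

set_option autoImplicit false

namespace Pool.Agent.BES.H43

open Set Filter Topology MeasureTheory
open scoped InnerProductSpace ENNReal
open Pool.Agent.BE01
open Pool.Agent.BEB (cf hs)
open Pool.Agent.BES

theorem mj_eq (m j : ℕ) : mj m j = (Lj m j : ℝ) + 1 / 2 := by
  unfold mj Lj; push_cast; ring

theorem mj_pos (m j : ℕ) : 0 < mj m j := by unfold mj; positivity

theorem sg_mp (hn : ∀ x, ‖sg x‖ = ‖x‖) :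
    MeasurePreserving sg (volume : Measure (En 2)) volume := by
  let e : En 2 →ₗ[ℝ] En 2 :=
    { toFun := sg
      map_add' := by
        intro x y
        ext i
        fin_cases i
        · simp [sg]
        · simp [sg]; ring
      map_smul' := by
        intro c x
        ext i
        fin_cases i <;> simp [sg] }
  let li : En 2 →ₗᵢ[ℝ] En 2 := ⟨e, hn⟩
  exact (li.toLinearIsometryEquiv rfl).measurePreserving

theorem lg_eq (hGso : GsoStmt) (m j : ℕ) (c t : ℝ) :
    Lg (mj m j) 0 (fun s => gs (Lj m j) (c * s)) t = -(c * gs (Lj m j) (c * t)) := by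
  have h1 : deriv (fun s => gs (Lj m j) (c * s)) = fun s => c * deriv (gs (Lj m j)) (c * s) := by
    funext s
    rw [deriv_comp_mul_left, smul_eq_mul]
  have h2 : deriv (deriv (fun s => gs (Lj m j) (c * s))) t =
      c * (c * deriv (deriv (gs (Lj m j))) (c * t)) := by
    rw [h1, deriv_const_mul_field, deriv_comp_mul_left, smul_eq_mul]
  have h3 := (hGso (Lj m j)).2.2.2 (c * t)
  unfold Lg
  rw [h2, h1, mj_eq]
  linear_combination c * h3

theorem phs (hGso : GsoStmt) (hHct : HctStmt) (hSdo : SdoStmt) (hPwk : PwkStmt) (hSco : ScoStmt) :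
    PhsStmt := by
  intro m j R x hR hx hz
  set L := Lj m j with hL
  set c : ℝ := (x / R) ^ 2 with hc
  set g : ℝ → ℝ := fun s => gs L (c * s) with hg
  have hgs : ContDiff ℝ ((⊤ : ℕ∞) : WithTop ℕ∞) (gs L) := (hGso L).1
  have hgsm : ContDiff ℝ ((⊤ : ℕ∞) : WithTop ℕ∞) g := hgs.comp (contDiff_const.mul contDiff_id)
  have hgR : g (R ^ 2) = 0 := by
    have h1 : c * R ^ 2 = x ^ 2 := by rw [hc]; field_simp
    rw [hg]
    simp only
    rw [h1, ← (hGso L).2.2.1 x]
    exact hz
  obtain ⟨hdom, hslt, hsg⟩ := hSdo m R hR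
  obtain ⟨hmem, f, G, hfG, hf, hG⟩ := hSco m j R g hR hgsm hgR
  set v : En 2 → ℝ := fun y => g (‖y‖ ^ 2) * Hf (mj m j) y with hv
  have hvc : Continuous v := by
    have h1 := (hHct.1 (mj m j) (mj_pos m j)).1
    have h2 : Continuous g := hgsm.continuous
    exact (h2.comp (continuous_norm.pow 2)).mul h1
  refine ⟨f, ?_, ⟨G, hfG, ?_⟩, ?_⟩
  · intro h0
    have h1 : v =ᵐ[volume.restrict (Sec m R)] fun _ => (0 : ℝ) := by
      have h2 : (f : En 2 → ℝ) =ᵐ[mu (Sec m R)] 0 := by
        rw [h0]; exact Lp.coeFn_zero _ _ _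
      filter_upwards [hf, h2] with y hy hy2
      rw [← hy, hy2]; rfl
    have h2 : EqOn v (fun _ => (0 : ℝ)) (Sec m R) :=
      Measure.eqOn_open_of_ae_eq h1 hdom.1 hvc.continuousOn continuousOn_const
    -- a small point on the axis
    have h3 : ∀ᶠ t : ℝ in 𝓝 0, 0 < gs L (c * t ^ 2) := by
      have h4 : Continuous fun t : ℝ => gs L (c * t ^ 2) :=
        hgs.continuous.comp (continuous_const.mul (continuous_pow 2))
      have h5 : gs L (c * (0 : ℝ) ^ 2) = 1 := by
        rw [zero_pow two_ne_zero, mul_zero]; exact (hGso L).2.1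
      refine h4.continuousAt.eventually (lt_mem_nhds ?_)
      show 0 < gs L (c * (0 : ℝ) ^ 2)
      rw [h5]; exact one_pos
    obtain ⟨ε, hε, h4⟩ := Metric.eventually_nhds_iff.1 h3
    set t : ℝ := min (ε / 2) (R / 2) with ht
    have ht0 : 0 < t := lt_min (by positivity) (by positivity)
    have htε : t < ε := (min_le_left _ _).trans_lt (by linarith)
    have htR : t < R := (min_le_right _ _).trans_lt (by linarith)
    have h5 : 0 < gs L (c * t ^ 2) := h4 (by rw [dist_zero_right, Real.norm_eq_abs, abs_of_pos ht0]; exact htε)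
    set p : En 2 := WithLp.toLp 2 ![t, 0] with hp
    have hpn : ‖p‖ = t := by
      rw [EuclideanSpace.norm_eq, Fin.sum_univ_two]
      simp [hp, Real.sqrt_sq ht0.le, abs_of_pos ht0]
    have hp0 : p 0 = t := by simp [hp]
    have hal0 : 0 < al m := by unfold al; positivity
    have hal1 : al m ≤ Real.pi := by
      unfold al
      rw [div_le_iff₀ (by positivity)]
      nlinarith [Real.pi_pos, (Nat.cast_nonneg m : (0 : ℝ) ≤ m)]
    have hcos : Real.cos (al m) < 1 := by
      have := Real.strictAntiOn_cos (Set.left_mem_Icc.2 Real.pi_pos.le) ⟨hal0.le, hal1⟩ hal0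
      rwa [Real.cos_zero] at this
    have hpS : p ∈ Sec m R := by
      refine ⟨by rw [hpn]; exact htR, ?_⟩
      rw [hpn, hp0]
      nlinarith
    have h6 := h2 hpS
    have h7 : v p = gs L (c * t ^ 2) * t ^ (mj m j) := by
      rw [hv]
      simp only [hg, Hf]
      rw [hpn, hp0, div_self ht0.ne', Real.arccos_one, mul_zero, Real.cos_zero, mul_one]
    have h8 : 0 < v p := by
      rw [h7]; exact mul_pos h5 (Real.rpow_pos_of_pos ht0 _)
    have h9 : v p = 0 := h6
    linarith
  · intro ψ hψ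
    have h1 := hPwk (mj m j) g (Sec m R) ψ hgsm hdom.1 hslt hψ
    have h2 : ∫ y, ⟪G y, gradient ψ y⟫_ℝ ∂(mu (Sec m R)) =
        ∫ y, ⟪gradient ψ y, gradient v y⟫_ℝ ∂(mu (Sec m R)) := by
      refine integral_congr_ae ?_
      filter_upwards [hG] with y hy
      rw [hy, real_inner_comm]
    rw [h2, h1, ← integral_neg, ← integral_const_mul]
    refine integral_congr_ae ?_
    filter_upwards [hf] with y hy
    rw [hy, lg_eq hGso m j c (‖y‖ ^ 2)]
    ring
  · have hmp : MeasurePreserving sg (mu (Sec m R)) (mu (Sec m R)) := by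
      have h1 := sg_mp hHct.2.1
      have h2 : sg ⁻¹' (Sec m R) = Sec m R := by
        ext y; exact hsg y
      have h3 := h1.restrict_preimage (s := Sec m R) hdom.1.measurableSet
      rw [h2] at h3
      exact h3
    have h1 : (fun y => f (sg y)) =ᵐ[mu (Sec m R)] fun y => v (sg y) :=
      hmp.quasiMeasurePreserving.ae_eq_comp hf
    show (fun y => f (sg y)) =ᵐ[mu (Sec m R)] f
    filter_upwards [h1, hf] with y hy1 hy2
    rw [hy1, hy2, hv]
    simp only
    rw [hHct.2.1, hHct.2.2]

end Pool.Agent.BES.H43
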